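import Mathlib

/-!
# MP_9c346b_co: planar sets with distance multiplicities `(n-1, n-2, …, 1)`

The sets of types (A), (B), (C) are not the only ones with multiplicities `(n-1, n-2, …, 1)`, for
no `n ≥ 6`: the points `P_t = (t, 0)` (`t` even), `P_t = (t, 2)` (`t` odd), `0 ≤ t < n`, form an
orbit piece of a glide reflection, so `|P_s - P_t|` only depends on `|s - t|`; the `n - 1` values are
different and the value of `|s - t| = k` is attained by exactly `n - k` pairs.
-/

set_option autoImplicit false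

open Finset

namespace Pool.Agent.Results.MP_9c346b_co.GlideOrbit

/-- The Euclidean plane. -/
abbrev Plane : Type := EuclideanSpace ℝ (Fin 2)

/-- The set of (nonzero) distances of `X`. -/
noncomputable def distances (X : Finset Plane) : Finset ℝ :=
  X.offDiag.image (fun p => dist p.1 p.2)

/-- The multiplicity `μ(X, d)`: the number of two-element subsets `{x, y}` of `X` with
`|x - y| = d`. -/
noncomputable def mult (X : Finset Plane) (d : ℝ) : ℕ :=
  by classical exact ((X.powersetCard 2).filter (fun s => ∃ x ∈ s, ∃ y ∈ s, x ≠ y ∧ dist x y = d)).card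

/-- The list `a(X)`, as a multiset: the multiplicities of all the distances of `X` (one entry for
each distance). -/
noncomputable def a (X : Finset Plane) : Multiset ℕ :=
  (distances X).val.map (mult X)

/-- The point `c + r (cos φ, sin φ)`. -/
noncomputable def circlePoint (c : Plane) (r φ : ℝ) : Plane :=
  c + !₂[r * Real.cos φ, r * Real.sin φ]

/-- Type (A) for `n` points: `{p + j v : 0 ≤ j ≤ n - 1}` with `v ≠ 0`. -/
def TypeA (n : ℕ) (X : Finset Plane) : Prop :=
  ∃ p v : Plane, v ≠ 0 ∧ (X : Set Plane) = {x | ∃ j : ℕ, j ≤ n - 1 ∧ x = p + (j : ℝ) • v}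

/-- Type (B) for `n` points: `{c + r (cos (α + j θ), sin (α + j θ)) : 0 ≤ j ≤ n - 1}` with `r > 0` and
`0 < (n - 1) θ < 2 π`. -/
def TypeB (n : ℕ) (X : Finset Plane) : Prop :=
  ∃ (c : Plane) (r α θ : ℝ), 0 < r ∧ 0 < ((n : ℝ) - 1) * θ ∧ ((n : ℝ) - 1) * θ < 2 * Real.pi ∧
    (X : Set Plane) = {x | ∃ j : ℕ, j ≤ n - 1 ∧ x = circlePoint c r (α + j * θ)}

/-- Type (C) for `n` points: `{c} ∪ {c + r (cos (α + j θ), sin (α + j θ)) : 0 ≤ j ≤ n - 2}` with
`r > 0` and `0 < (n - 2) θ < 2 π`. -/
def TypeC (n : ℕ) (X : Finset Plane) : Prop :=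
  ∃ (c : Plane) (r α θ : ℝ), 0 < r ∧ 0 < ((n : ℝ) - 2) * θ ∧ ((n : ℝ) - 2) * θ < 2 * Real.pi ∧
    (X : Set Plane) = insert c {x | ∃ j : ℕ, j ≤ n - 2 ∧ x = circlePoint c r (α + j * θ)}

/-! ### The example -/

/-- The point `P_t`. -/
noncomputable def P (t : ℕ) : Plane := !₂[(t : ℝ), if Even t then (0 : ℝ) else 2]

lemma P_zero (t : ℕ) : P t 0 = t := rfl

lemma P_one (t : ℕ) : P t 1 = if Even t then (0 : ℝ) else 2 := rfl

lemma P_inj : Function.Injective P := by
  intro s t h
  have h1 := congrArg (fun x : Plane => x 0) h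
  simp only [P_zero] at h1
  exact_mod_cast h1

/-- the distance of `P_s` and `P_{s+k}` -/
noncomputable def f (k : ℕ) : ℝ := √((k : ℝ) ^ 2 + if Even k then (0 : ℝ) else 4)

lemma dist_P (s k : ℕ) : dist (P s) (P (s + k)) = f k := by
  rw [EuclideanSpace.dist_eq, Fin.sum_univ_two, f]
  congr 1
  rw [Real.dist_eq, Real.dist_eq, sq_abs, sq_abs, P_zero, P_zero, P_one, P_one]
  rcases Nat.even_or_odd s with hs | hs <;> rcases Nat.even_or_odd k with hk | hk
  · have h1 : Even (s + k) := hs.add hk
    rw [if_pos hs, if_pos h1, if_pos hk]; push_cast; ring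
  · have h1 : ¬ Even (s + k) := by rw [Nat.not_even_iff_odd]; exact hs.add_odd hk
    rw [if_pos hs, if_neg h1, if_neg (by rwa [Nat.not_even_iff_odd])]; push_cast; ring
  · have h1 : ¬ Even (s + k) := by rw [Nat.not_even_iff_odd]; exact hs.add_even hk
    rw [if_neg (by rwa [Nat.not_even_iff_odd]), if_neg h1, if_pos hk]; push_cast; ring
  · have h1 : Even (s + k) := hs.add_odd hk
    rw [if_neg (by rwa [Nat.not_even_iff_odd]), if_pos h1, if_neg (by rwa [Nat.not_even_iff_odd])]
    push_cast; ring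

lemma f_inj : Function.Injective f := by
  intro j k h
  have hj : (0 : ℝ) ≤ (j : ℝ) ^ 2 + if Even j then (0 : ℝ) else 4 := by split_ifs <;> positivity
  have hk : (0 : ℝ) ≤ (k : ℝ) ^ 2 + if Even k then (0 : ℝ) else 4 := by split_ifs <;> positivity
  have h2 := (Real.sqrt_inj hj hk).1 h
  have h3 : j ^ 2 + (if Even j then 0 else 4) = k ^ 2 + (if Even k then 0 else 4) := by
    have h4 : ((j ^ 2 + (if Even j then 0 else 4) : ℕ) : ℝ)
        = ((k ^ 2 + (if Even k then 0 else 4) : ℕ) : ℝ) := by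
      push_cast
      exact h2
    exact_mod_cast h4
  rcases Nat.even_or_odd j with hj | hj <;> rcases Nat.even_or_odd k with hk | hk
  · rw [if_pos hj, if_pos hk] at h3
    nlinarith
  · exfalso
    rw [if_pos hj, if_neg (by rwa [Nat.not_even_iff_odd])] at h3
    obtain ⟨u, rfl⟩ := hj
    obtain ⟨v, rfl⟩ := hk
    ring_nf at h3
    omega
  · exfalso
    rw [if_neg (by rwa [Nat.not_even_iff_odd]), if_pos hk] at h3
    obtain ⟨u, rfl⟩ := hj
    obtain ⟨v, rfl⟩ := hk
    ring_nf at h3
    omega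
  · rw [if_neg (by rwa [Nat.not_even_iff_odd]), if_neg (by rwa [Nat.not_even_iff_odd])] at h3
    nlinarith

lemma dist_P_abs {s t : ℕ} (h : s < t) : dist (P s) (P t) = f (t - s) := by
  have := dist_P s (t - s)
  rwa [Nat.add_sub_cancel' h.le] at this

/-- The set `X_n = {P_0, …, P_{n-1}}`. -/
noncomputable def X (n : ℕ) : Finset Plane := (range n).image P

lemma card_X (n : ℕ) : (X n).card = n := by
  rw [X, card_image_of_injective _ P_inj, card_range]

lemma distances_X (n : ℕ) : distances (X n) = (Icc 1 (n - 1)).image f := by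
  ext d
  simp only [distances, X, mem_image, mem_offDiag, Prod.exists, mem_range, mem_Icc]
  constructor
  · rintro ⟨x, y, ⟨⟨s, hs, rfl⟩, ⟨t, ht, rfl⟩, hne⟩, rfl⟩
    have hst : s ≠ t := fun h => hne (by rw [h])
    rcases lt_or_gt_of_ne hst with h | h
    · exact ⟨t - s, by omega, (dist_P_abs h).symm⟩
    · exact ⟨s - t, by omega, by rw [dist_comm]; exact (dist_P_abs h).symm⟩
  · rintro ⟨k, hk, rfl⟩
    refine ⟨P 0, P k, ⟨⟨0, by omega, rfl⟩, ⟨k, by omega, rfl⟩, fun h => ?_⟩, ?_⟩
    · have := P_inj h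
      omega
    · have := dist_P 0 k
      rwa [Nat.zero_add] at this

lemma mult_X (n k : ℕ) (hk : 1 ≤ k) : mult (X n) (f k) = n - k := by
  classical
  unfold mult
  have key : ((X n).powersetCard 2).filter
      (fun s => ∃ x ∈ s, ∃ y ∈ s, x ≠ y ∧ dist x y = f k)
      = (range (n - k)).image (fun s => ({P s, P (s + k)} : Finset Plane)) := by
    ext s
    simp only [mem_filter, mem_powersetCard, mem_image, mem_range]
    constructor
    · rintro ⟨⟨hsX, hs2⟩, x, hx, y, hy, hxy, hd⟩
      have hxX := hsX hx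
      have hyX := hsX hy
      simp only [X, mem_image, mem_range] at hxX hyX
      obtain ⟨i, hi, rfl⟩ := hxX
      obtain ⟨j, hj, rfl⟩ := hyX
      have hsub : ({P i, P j} : Finset Plane) ⊆ s := by
        intro z hz
        simp only [mem_insert, mem_singleton] at hz
        rcases hz with rfl | rfl <;> assumption
      have heq : ({P i, P j} : Finset Plane) = s :=
        eq_of_subset_of_card_le hsub (by rw [hs2, card_pair hxy])
      have hij : i ≠ j := fun h => hxy (by rw [h])
      rcases lt_or_gt_of_ne hij with h | h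
      · rw [dist_P_abs h] at hd
        have := f_inj hd
        refine ⟨i, by omega, ?_⟩
        rw [← heq]
        congr 3
        omega
      · rw [dist_comm, dist_P_abs h] at hd
        have := f_inj hd
        refine ⟨j, by omega, ?_⟩
        rw [← heq, pair_comm]
        congr 2
        omega
    · rintro ⟨i, hi, rfl⟩
      have hne : P i ≠ P (i + k) := fun h => by have := P_inj h; omega
      refine ⟨⟨?_, card_pair hne⟩, P i, by simp, P (i + k), by simp, hne, dist_P i k⟩
      intro z hz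
      simp only [mem_insert, mem_singleton] at hz
      simp only [X, mem_image, mem_range]
      rcases hz with rfl | rfl
      · exact ⟨i, by omega, rfl⟩
      · exact ⟨i + k, by omega, rfl⟩
  rw [key, card_image_of_injOn, card_range]
  intro i _ j _ hij
  simp only at hij
  have h1 : P i ∈ ({P j, P (j + k)} : Finset Plane) := by rw [← hij]; simp
  have h2 : P j ∈ ({P i, P (i + k)} : Finset Plane) := by rw [hij]; simp
  simp only [mem_insert, mem_singleton] at h1 h2
  rcases h1 with h1 | h1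
  · exact P_inj h1
  · rcases h2 with h2 | h2
    · exact (P_inj h2).symm
    · have := P_inj h1
      have := P_inj h2
      omega

lemma a_X (n : ℕ) : a (X n) = (Icc 1 (n - 1)).val := by
  unfold a
  rw [distances_X, image_val_of_injOn (f_inj.injOn), Multiset.map_map]
  have h1 : Multiset.map (mult (X n) ∘ f) (Icc 1 (n - 1)).val
      = Multiset.map (fun k => n - k) (Icc 1 (n - 1)).val := by
    apply Multiset.map_congr rfl
    intro k hk
    have hk' : k ∈ Icc 1 (n - 1) := hk
    rw [mem_Icc] at hk'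
    exact mult_X n k hk'.1
  rw [h1]
  have h2 : (Icc 1 (n - 1)).image (fun k => n - k) = Icc 1 (n - 1) := by
    ext k
    simp only [mem_image, mem_Icc]
    constructor
    · rintro ⟨j, hj, rfl⟩
      omega
    · intro hk
      exact ⟨n - k, by omega, by omega⟩
  conv_rhs => rw [← h2]
  rw [image_val_of_injOn]
  intro i hi j hj hij
  simp only [coe_Icc, Set.mem_Icc] at hi hj hij
  omega

/-! ### The example has none of the three types -/

lemma sq_dist_circlePoint (c : Plane) (r φ : ℝ) :
    (circlePoint c r φ 0 - c 0) ^ 2 + (circlePoint c r φ 1 - c 1) ^ 2 = r ^ 2 := by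
  have h0 : circlePoint c r φ 0 = c 0 + r * Real.cos φ := rfl
  have h1 : circlePoint c r φ 1 = c 1 + r * Real.sin φ := rfl
  rw [h0, h1]
  have := Real.sin_sq_add_cos_sq φ
  nlinarith

/-- three points `P_s, P_{s+2}, P_{s+4}` are not on a circle -/
lemma not_three (s : ℕ) (c : Plane) (R : ℝ)
    (h0 : (P s 0 - c 0) ^ 2 + (P s 1 - c 1) ^ 2 = R)
    (h1 : (P (s + 2) 0 - c 0) ^ 2 + (P (s + 2) 1 - c 1) ^ 2 = R)
    (h2 : (P (s + 4) 0 - c 0) ^ 2 + (P (s + 4) 1 - c 1) ^ 2 = R) : False := by
  have e1 : P (s + 2) 1 = P s 1 := by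
    rw [P_one, P_one]
    congr 1
    simp [Nat.even_add]
  have e2 : P (s + 4) 1 = P s 1 := by
    rw [P_one, P_one]
    congr 1
    simp only [Nat.even_add, eq_iff_iff, iff_iff_implies_and_implies]
    have : Even 4 := by decide
    tauto
  rw [e1] at h1
  rw [e2] at h2
  rw [P_zero] at h0 h1 h2
  push_cast at h1 h2
  nlinarith

lemma mem_X {n t : ℕ} (h : t < n) : P t ∈ (X n : Set Plane) := by
  simp only [X, coe_image, Set.mem_image]
  exact ⟨t, by simpa using h, rfl⟩

lemma not_typeA {n : ℕ} (hn : 6 ≤ n) : ¬ TypeA n (X n) := by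
  rintro ⟨p, v, hv, hX⟩
  have key : ∀ t, t < n → ∃ j : ℝ, P t 0 = p 0 + j * v 0 ∧ P t 1 = p 1 + j * v 1 := by
    intro t ht
    have := mem_X ht
    rw [hX] at this
    obtain ⟨j, -, hj⟩ := this
    refine ⟨j, ?_, ?_⟩
    · rw [hj]; rfl
    · rw [hj]; rfl
  obtain ⟨j0, h00, h01⟩ := key 0 (by omega)
  obtain ⟨j1, h10, h11⟩ := key 1 (by omega)
  obtain ⟨j2, h20, h21⟩ := key 2 (by omega)
  have e0 : P 0 1 = 0 := by rw [P_one, if_pos (by decide)]
  have e1 : P 1 1 = 2 := by rw [P_one, if_neg (by decide)]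
  have e2 : P 2 1 = 0 := by rw [P_one, if_pos (by decide)]
  rw [P_zero] at h00 h10 h20
  rw [e0] at h01
  rw [e1] at h11
  rw [e2] at h21
  push_cast at h00 h10 h20
  have h3 : (j2 - j0) * v 1 = 0 := by linarith
  rcases mul_eq_zero.1 h3 with h4 | h4
  · have h5 : (j2 - j0) * v 0 = 2 := by linarith
    rw [h4] at h5
    linarith
  · rw [h4] at h01 h11
    linarith

lemma not_typeB {n : ℕ} (hn : 6 ≤ n) : ¬ TypeB n (X n) := by
  rintro ⟨c, r, α, θ, -, -, -, hX⟩
  have key : ∀ t, t < n → (P t 0 - c 0) ^ 2 + (P t 1 - c 1) ^ 2 = r ^ 2 := by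
    intro t ht
    have := mem_X ht
    rw [hX] at this
    obtain ⟨j, -, hj⟩ := this
    rw [hj]
    exact sq_dist_circlePoint c r _
  exact not_three 0 c _ (key 0 (by omega)) (key 2 (by omega)) (key 4 (by omega))

lemma not_typeC {n : ℕ} (hn : 6 ≤ n) : ¬ TypeC n (X n) := by
  rintro ⟨c, r, α, θ, -, -, -, hX⟩
  have key : ∀ t, t < n → P t ≠ c → (P t 0 - c 0) ^ 2 + (P t 1 - c 1) ^ 2 = r ^ 2 := by
    intro t ht hne
    have := mem_X ht
    rw [hX] at this
    rcases this with h | ⟨j, -, hj⟩
    · exact absurd h hne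
    · rw [hj]
      exact sq_dist_circlePoint c r _
  by_cases hc : ∃ t, Even t ∧ P t = c
  · obtain ⟨t, ht, rfl⟩ := hc
    have hne : ∀ s, ¬ Even s → P s ≠ P t := by
      intro s hs h
      have := P_inj h
      rw [this] at hs
      exact hs ht
    exact not_three 1 (P t) _ (key 1 (by omega) (hne 1 (by decide)))
      (key 3 (by omega) (hne 3 (by decide))) (key 5 (by omega) (hne 5 (by decide)))
  · push Not at hc
    exact not_three 0 c _ (key 0 (by omega) (hc 0 (by decide)))
      (key 2 (by omega) (hc 2 (by decide))) (key 4 (by omega) (hc 4 (by decide)))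

/-- For every `n ≥ 6` there is a set of `n` points of the plane with distance multiplicities
`n-1, n-2, …, 1` that is of none of the types (A), (B), (C). -/
theorem result : ∀ n : ℕ, 6 ≤ n → ∃ X : Finset Plane, X.card = n ∧
    a X = (Icc 1 (n - 1)).val ∧ ¬ TypeA n X ∧ ¬ TypeB n X ∧ ¬ TypeC n X :=
  fun n hn => ⟨X n, card_X n, a_X n, not_typeA hn, not_typeB hn, not_typeC hn⟩

end Pool.Agent.Results.MP_9c346b_co.GlideOrbit
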